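import Mathlib

set_option autoImplicit false

open Finset MeasureTheory
open scoped RealInnerProductSpace

namespace Pool.Agent.Results.MP_768819_an.AtLeastFour

noncomputable def ind (u : ℝ) : Lp ℝ 2 (volume : Measure ℝ) :=
  indicatorConstLp 2 (measurableSet_Icc (a := (0 : ℝ)) (b := u)) (by simp) (1 : ℝ)

theorem ind_inner {u v : ℝ} (hu : 0 ≤ u) (hv : 0 ≤ v) : ⟪ind u, ind v⟫ = min u v := by
  unfold ind
  rw [L2.real_inner_indicatorConstLp_one_indicatorConstLp_one _ _ (by simp) (by simp),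
    Set.Icc_inter_Icc]
  simp [hu, hv]

theorem ker {M u v : ℝ} (hu : 0 ≤ u) (hv : 0 ≤ v) (huM : u ≤ M) (hvM : v ≤ M) :
    ⟪ind M - (2 : ℝ) • ind u, ind M - (2 : ℝ) • ind v⟫ = M - 2 * |u - v| := by
  have hM := hu.trans huM
  simp only [inner_sub_left, inner_sub_right, real_inner_smul_left, real_inner_smul_right,
    ind_inner hM hM, ind_inner hM hv, ind_inner hu hM, ind_inner hu hv, min_self,
    min_eq_right hvM, min_eq_left huM]
  rcases le_total u v with h | h
  · rw [min_eq_left h, abs_of_nonpos (by linarith)]; ring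
  · rw [min_eq_right h, abs_of_nonneg (by linarith)]; ring

theorem circ (L : ℝ) : ∃ S : ℝ → Lp ℝ 2 (volume : Measure ℝ), ∀ s t d : ℝ, 0 ≤ s → s ≤ L →
    0 ≤ t → t ≤ L → d ≤ |s - t| → d ≤ L - |s - t| → d ≤ L / 4 - ⟪S s, S t⟫ / 2 := by
  refine ⟨fun s => if s ≤ L / 2 then ind (L / 2) - (2 : ℝ) • ind s
    else -(ind (L / 2) - (2 : ℝ) • ind (s - L / 2)), fun s t d s0 s1 t0 t1 h1 h2 => ?_⟩
  by_cases hs : s ≤ L / 2 <;> by_cases ht : t ≤ L / 2 <;>
    simp only [hs, ht, if_true, if_false, inner_neg_left, inner_neg_right, neg_neg]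
  · rw [ker s0 t0 hs ht]; linarith
  · rw [ker s0 (by linarith) hs (by linarith)]
    rw [abs_of_nonpos (by linarith)] at h1 h2
    cases abs_cases (s - (t - L / 2)) <;> linarith
  · rw [ker (by linarith) t0 (by linarith) ht]
    rw [abs_of_nonneg (by linarith)] at h1 h2
    cases abs_cases (s - L / 2 - t) <;> linarith
  · rw [ker (by linarith) (by linarith) (by linarith) (by linarith)]
    have : s - L / 2 - (t - L / 2) = s - t := by ring
    rw [this]; linarith

theorem cyc {X : Type} [NormedAddCommGroup X] [NormedSpace ℝ X] (n : ℕ) (q : Fin (n + 2) → X)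
    (hq : ∀ i, ‖q i‖ = 1) (h0 : (0 : X) ∈ convexHull ℝ (Set.range q)) :
    4 ≤ ∑ k, ‖q (k + 1) - q k‖ := by
  set Q : ℕ → X := fun k => q (Fin.ofNat (n + 2) k) with hQ
  set t : ℕ → ℝ := fun k => ∑ i ∈ range k, ‖Q (i + 1) - Q i‖ with ht
  have hL : ∑ k, ‖q (k + 1) - q k‖ = t (n + 2) := by
    simp only [ht]
    rw [← Fin.sum_univ_eq_sum_range (fun i => ‖Q (i + 1) - Q i‖)]
    refine sum_congr rfl (fun k _ => ?_)
    simp only [hQ]
    have e1 : Fin.ofNat (n + 2) (k + 1) = k + 1 := by ext; simp [Fin.add_def]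
    have e2 : Fin.ofNat (n + 2) k = k := by simp
    rw [e1, e2]
  have hd : ∀ i j, i ≤ j → ‖Q j - Q i‖ ≤ t j - t i := fun i j hij => by
    induction j, hij using Nat.le_induction with
    | base => simp
    | succ j _ ih =>
      have e : t (j + 1) = t j + ‖Q (j + 1) - Q j‖ := sum_range_succ _ _
      have := norm_add_le (Q (j + 1) - Q j) (Q j - Q i)
      rw [sub_add_sub_cancel] at this
      linarith
  have hm : ∀ i j, i ≤ j → t i ≤ t j := fun i j hij => by linarith [hd i j hij, norm_nonneg (Q j - Q i)]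
  have ht0 : t 0 = 0 := by simp [ht]
  have hQN : Q (n + 2) = Q 0 := by simp [hQ]
  have hd2 : ∀ i j, i ≤ j → j ≤ n + 2 → ‖Q j - Q i‖ ≤ t (n + 2) - (t j - t i) := fun i j _ hj => by
    have e1 := hd j (n + 2) hj
    have e2 := hd 0 i (Nat.zero_le i)
    rw [hQN] at e1
    have := norm_add_le (Q 0 - Q j) (Q i - Q 0)
    rw [sub_add_sub_cancel', norm_sub_rev] at this
    linarith
  obtain ⟨S, hS⟩ := circ (t (n + 2))
  have hq' : ∀ i : Fin (n + 2), q i = Q i := fun i => by simp [hQ]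
  have key : ∀ i j : Fin (n + 2), ‖q i - q j‖ ≤ t (n + 2) / 4 - ⟪S (t i), S (t j)⟫ / 2 := by
    intro i j
    refine hS _ _ _ (ht0 ▸ hm 0 i (Nat.zero_le _)) (hm _ _ i.2.le) (ht0 ▸ hm 0 j (Nat.zero_le _))
      (hm _ _ j.2.le) ?_ ?_
    · rw [hq', hq']
      rcases le_total (i : ℕ) j with h | h
      · rw [abs_sub_comm, abs_of_nonneg (by linarith [hm _ _ h]), norm_sub_rev]; exact hd _ _ h
      · rw [abs_of_nonneg (by linarith [hm _ _ h])]; exact hd _ _ h
    · rw [hq', hq']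
      rcases le_total (i : ℕ) j with h | h
      · rw [abs_sub_comm, abs_of_nonneg (by linarith [hm _ _ h]), norm_sub_rev]
        exact hd2 _ _ h j.2.le
      · rw [abs_of_nonneg (by linarith [hm _ _ h])]; exact hd2 _ _ h i.2.le
  rw [convexHull_range_eq_exists_affineCombination] at h0
  obtain ⟨s, w, hw0, hw1, hw⟩ := h0
  rw [affineCombination_eq_linear_combination _ _ _ hw1] at hw
  have h1 : ∀ i, 1 ≤ ∑ j ∈ s, w j * ‖q i - q j‖ := fun i => by
    have e : q i = ∑ j ∈ s, w j • (q i - q j) := by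
      simp only [smul_sub, sum_sub_distrib, ← sum_smul, hw1, hw, one_smul, sub_zero]
    rw [← hq i]
    nth_rewrite 1 [e]
    refine (norm_sum_le _ _).trans (le_of_eq (sum_congr rfl (fun j hj => ?_)))
    rw [norm_smul, Real.norm_of_nonneg (hw0 j hj)]
  have h2 : (1 : ℝ) ≤ ∑ i ∈ s, w i * ∑ j ∈ s, w j * (t (n + 2) / 4 - ⟪S (t i), S (t j)⟫ / 2) := by
    rw [← hw1]
    refine sum_le_sum (fun i hi => le_mul_of_one_le_right (hw0 i hi) ((h1 i).trans ?_))
    exact sum_le_sum (fun j hj => mul_le_mul_of_nonneg_left (key i j) (hw0 j hj))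
  have h3 : ∑ i ∈ s, w i * ∑ j ∈ s, w j * (t (n + 2) / 4 - ⟪S (t i), S (t j)⟫ / 2) =
      t (n + 2) / 4 - ⟪∑ i ∈ s, w i • S (t i), ∑ j ∈ s, w j • S (t j)⟫ / 2 := by
    simp only [mul_sub, sum_sub_distrib, ← sum_mul, hw1, one_mul, sum_inner, inner_sum,
      real_inner_smul_left, real_inner_smul_right, sum_div, mul_sum, mul_div_assoc]
    congr 1
    exact sum_congr rfl (fun i _ => sum_congr rfl (fun j _ => by rw [real_inner_comm]))
  have h4 := real_inner_self_nonneg (x := ∑ i ∈ s, w i • S (t i))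
  rw [hL]
  linarith

theorem result (X : Type) [NormedAddCommGroup X] [NormedSpace ℝ X] (n : ℕ) (p : Fin (n + 2) → X)
    (hp : ∀ i, ‖p i‖ = 1) (h0 : (0 : X) ∈ convexHull ℝ (Set.range p))
    (σ : Equiv.Perm (Fin (n + 2))) : 4 ≤ ∑ k, ‖p (σ (k + 1)) - p (σ k)‖ :=
  cyc n (p ∘ σ) (fun i => hp _) (by rwa [σ.surjective.range_comp])

end Pool.Agent.Results.MP_768819_an.AtLeastFour
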